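import Pool.Agent.X308.D.Main

/-!
# MP_b197b4_nt: the negative degrees of the étale motivic cohomology in weight `d`

`M` consists of the motivic cohomology `H^i(X, ℚ(n))` with rational coefficients and the étale
motivic cohomology `H^i(X_et, ℤ(n))`, with some known properties (`KnownProperties`): the groups
`H^i(X, ℚ(n))` are rational vector spaces, functorial in `X`; extensions of fields induce injective
maps, purely inseparable ones induce surjective maps; the exact sequence of Milnor type for
`F ⊂ F(t)`; `H^0(k, ℚ(n)) = 0` for `k = ℚ, 𝔽_p` and `n ≥ 1` (Borel, Quillen); a vanishing criterion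
for `X` from the coniveau spectral sequence, and a vanishing criterion for finitely generated fields
from alterations and localization; and `H^i(X_et, ℤ(d)) = H^i(X, ℚ(d))` for `i < 0` and
`d = dim X`, which the problem lists as known. Schemes `X` are proper, regular and connected
arithmetic schemes, `d` is the dimension.

Theorem. (A) These are equivalent:
(1) `H^i(X_et, ℤ(d))` is finitely generated for all `X` and all `i < 0`;
(2) `H^i(X, ℚ(n)) = 0` for all `X`, all `i < 0` and all `n ≥ d`;
(3) `H^i(F, ℚ(n)) = 0` for all finitely generated fields `F`, all `i < 0` and all `n` which are at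
least the Kronecker dimension of `F`;
(4) `H^(-1)(F, ℚ(d)) = 0` for all finitely generated fields `F` of Kronecker dimension `d`, all `d`;
(5) `H^0(𝔽_p(t_1, …, t_d), ℚ(d)) = 0` and `H^0(ℚ(t_1, …, t_(d-1)), ℚ(d)) = 0` for all primes `p` and
all `d ≥ 1`.
(B) Q1 is equivalent to the conjunction of its part in the degrees `0 ≤ i ≤ 2d` and (5).

Proof. (1) ⇒ (4): by (1) the rational vector spaces `H^i(X, ℚ(d))` with `i < 0` vanish. By induction
on `d` one obtains the vanishing of `H^i(F, ℚ(d))`. (4) ⇒ (5): a finitely generated field embeds
into one of the next dimension, so that (4) holds in all weights at least the dimension; the residues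
of the classes in `H^0(k(t_1, …, t_m), ℚ(n))` then vanish, and an induction on `m` leads to the prime
field `k`. (5) ⇒ (3): a finite extension `F` of `K = k(t_1, …, t_m)` is a purely inseparable extension
of a residue field of the affine line over `K`, so that `H^i(F, ℚ(n))` is a quotient of
`H^(i+1)(K(t), ℚ(n+1))`; both the dimension and the weight grow by one.
-/

set_option autoImplicit false

universe v

namespace Pool.Agent.Results.MP_b197b4_nt.NegativeDegrees

open Pool.Agent.X308.D

/-- The part of Q1 in negative degrees is equivalent to the vanishing of
`H^0(𝔽_p(t_1, …, t_d), ℚ(d))` and `H^0(ℚ(t_1, …, t_(d-1)), ℚ(d))`, for all `p` and all `d ≥ 1`. -/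
theorem result (M : MotivicData.{v}) (hM : KnownProperties M) :
    List.TFAE [FiniteGenerationNeg M, VanishingOnSchemes M, VanishingOnFields M,
      VanishingInDegreeMinusOne M, VanishingForRationalFunctions M] ∧
    (FiniteGeneration M ↔ FiniteGenerationNonneg M ∧ VanishingForRationalFunctions M) :=
  ⟨neg_iff hM, fg_iff hM⟩

end Pool.Agent.Results.MP_b197b4_nt.NegativeDegrees
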