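import Pool.Agent.X264.MW.Main

/-!
# Finite generation in weight `d` implies finite generation in all weights `≥ d`
-/

set_option autoImplicit false

open Pool.Agent.X264.MW

namespace Pool.Agent.Results.MP_b197b4_nt.NegativeWeights

universe u

/-- **All weights.** Q1 (for all `X`) holds if and only if `H^i(X_et, ℤ^c(n))` is finitely generated for
all `X`, all `n ≤ 0` and all `i ≤ -2 n`, i.e. `H^i(X_et, ℤ(d - n))` for `i ≤ 2 (d - n)`. -/
theorem result (T : Theory.{u}) (hT : T.HasProjectiveSpaces) :
    (∀ X (i : ℤ), i ≤ 2 * T.dim X → T.IsTopFG X i) ↔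
      ∀ X (n i : ℤ), n ≤ 0 → i ≤ -2 * n → T.IsFG X n i := by
  have h := Theory.main' hT 0
  simpa only [Nat.cast_zero, add_zero] using h

end Pool.Agent.Results.MP_b197b4_nt.NegativeWeights
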